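import Mathlib
import Pool.Agent.H65.FC.Core

namespace Pool.Agent.Results.MP_e1f4d9_pr.NoFastDecay

open Pool.Agent.H65.FC Finset Filter Topology

/-- The covariance of two functions of a colouring under the law `w`. -/
noncomputable def Cov {L : ℕ} (w g h : Colouring L → ℝ) : ℝ :=
  Ex w (fun f => g f * h f) - Ex w g * Ex w h

open Classical in
/-- The uniform law on the proper 4-colourings of the box with free boundary. -/
noncomputable def unif (L : ℕ) (f : Colouring L) : ℝ :=
  if Proper f then 1 / ((univ.filter fun g : Colouring L => Proper g).card : ℝ) else 0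

/-- The law `w` on the colourings of `Λ_L` violates the bound `K δ(d)` beyond distance `D` at
scale `R`: there are two `R × R` boxes in `Λ_L`, a number `d ≥ D` which is at most the distance of
the two boxes, and two `[-1,1]`-valued functions `g`, `h` of the colours in the first and in the
second box whose covariance exceeds `K δ(d)` in absolute value. -/
def Violates (L : ℕ) (w : Colouring L → ℝ) (R : ℕ) (K : ℝ) (D : ℕ) (δ : ℕ → ℝ) : Prop :=
  ∃ a b a' b' d : ℕ, a + R ≤ L ∧ b + R ≤ L ∧ a' + R ≤ L ∧ b' + R ≤ L ∧ D ≤ d ∧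
    (∀ p q : Fin L × Fin L, InBox R a b p → InBox R a' b' q → d ≤ sd p q) ∧
    ∃ g h : Colouring L → ℝ, LocalTo R a b g ∧ LocalTo R a' b' h ∧
      (∀ f, |g f| ≤ 1) ∧ (∀ f, |h f| ≤ 1) ∧ K * δ d < |Cov w g h|

lemma exists_proper (L : ℕ) : ∃ f : Colouring L, Proper f := by
  refine ⟨fun p => ⟨((p.1 : ℕ) + 2 * (p.2 : ℕ)) % 3, by omega⟩, ?_⟩
  intro p q hpq heq
  have h := congrArg Fin.val heq
  simp only at h
  unfold Adj at hpq
  simp only [Set.mem_insert_iff, Set.mem_singleton_iff, Prod.mk.injEq] at hpq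
  omega

lemma symLaw_unif (L : ℕ) : SymLaw (unif L) := by
  classical
  have hN : (0 : ℝ) < ((univ.filter fun g : Colouring L => Proper g).card : ℝ) := by
    obtain ⟨f, hf⟩ := exists_proper L
    have : 0 < (univ.filter fun g : Colouring L => Proper g).card :=
      card_pos.mpr ⟨f, by simp [hf]⟩
    exact_mod_cast this
  constructor
  · intro f
    unfold unif
    split_ifs
    · positivity
    · exact le_rfl
  · unfold unif
    rw [← sum_filter, sum_const, nsmul_eq_mul]
    convert mul_one_div_cancel hN.ne'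
  · intro f hf
    unfold unif at hf
    by_contra h
    rw [if_neg h] at hf
    exact hf rfl
  · intro σ f
    have : Proper (fun p => σ (f p)) ↔ Proper f := by
      constructor
      · intro h p q hpq heq
        exact h p q hpq (by simp [heq])
      · intro h p q hpq heq
        exact h p q hpq (σ.injective heq)
    unfold unif
    simp only [this]

lemma Good.shift {δ : ℕ → ℝ} (h : Good δ) (c : ℕ) : Good (fun n => δ (n - c)) := by
  refine ⟨fun a b hab => h.anti (by omega), fun j => h.nonneg _, ?_⟩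
  rw [← summable_nat_add_iff c]
  have h1 : Summable fun n : ℕ => ((n : ℝ) + c) * δ n := by
    have := h.summ.add (h.summable.mul_left (c : ℝ))
    refine this.congr (fun n => ?_)
    ring
  refine h1.congr (fun n => ?_)
  rw [Nat.add_sub_cancel]
  push_cast
  ring

lemma Good.add {δ δ' : ℕ → ℝ} (h : Good δ) (h' : Good δ') : Good (fun n => δ n + δ' n) := by
  refine ⟨fun a b hab => add_le_add (h.anti hab) (h'.anti hab),
    fun j => add_nonneg (h.nonneg _) (h'.nonneg _), ?_⟩
  refine (h.summ.add h'.summ).congr (fun n => ?_)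
  ring

lemma Good.mul {δ : ℕ → ℝ} (h : Good δ) {K : ℝ} (hK : 0 ≤ K) : Good (fun n => K * δ n) := by
  refine ⟨fun a b hab => mul_le_mul_of_nonneg_left (h.anti hab) hK,
    fun j => mul_nonneg hK (h.nonneg _), ?_⟩
  refine (h.summ.mul_left K).congr (fun n => ?_)
  ring

lemma good_step (D : ℕ) : Good (fun n => if n < D then (1 : ℝ) else 0) := by
  refine ⟨?_, ?_, ?_⟩
  · intro a b hab
    show (if b < D then (1 : ℝ) else 0) ≤ if a < D then (1 : ℝ) else 0
    split_ifs with h1 h2
    · exact le_rfl
    · omega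
    · norm_num
    · exact le_rfl
  · intro j
    show (0 : ℝ) ≤ if j < D then (1 : ℝ) else 0
    split_ifs <;> norm_num
  · apply summable_of_hasFiniteSupport
    refine (Set.finite_lt_nat D).subset ?_
    intro n hn
    rw [Function.mem_support] at hn
    by_contra h
    apply hn
    have : ¬ n < D := h
    rw [if_neg this, mul_zero]

/-- **No colour symmetric law on the colourings of a large box has fast decay.** -/
theorem violates {δ : ℕ → ℝ} (hδ : Good δ) (C : ℕ → ℝ) (D : ℕ) : ∃ R₁ L₀ : ℕ,
    ∀ L, L₀ ≤ L → ∀ w : Colouring L → ℝ, SymLaw w →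
      ∃ R, (R = 2 ∨ R = R₁) ∧ Violates L w R (C R) D δ := by
  -- the modified decay function
  set K' := max (C 2) 0 with hK'
  have hK'0 : 0 ≤ K' := le_max_right _ _
  set ε : ℕ → ℝ := fun n => (if n < D + 2 then (1 : ℝ) else 0) + K' * δ (n - 2) with hε
  have hεg : Good ε := Good.add (good_step (D + 2)) (Good.mul (Good.shift hδ 2) hK'0)
  obtain ⟨R, hR0, hcore⟩ := core hεg (1 / 2) (by norm_num)
  have hlim : Tendsto (fun d => max (C R) 0 * δ d) atTop (𝓝 0) := by
    have := (hδ.summable.tendsto_atTop_zero).const_mul (max (C R) 0)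
    simpa using this
  obtain ⟨d, hd1, hd2⟩ := ((hlim.eventually_lt_const (by norm_num : (0 : ℝ) < 1 / 8)).and
    (eventually_ge_atTop D)).exists
  refine ⟨R, 2 * R + d + 2, fun L hL w hw => ?_⟩
  by_contra hno
  push Not at hno
  have hno2 := hno 2 (Or.inl rfl)
  have hnoR := hno R (Or.inr rfl)
  have hinc : Inc ε L w hR := by
    apply inc_of_moment hw
    intro p q p' q' hs hs'
    have hp1 := p.1.isLt
    have hp2 := p.2.isLt
    have hp1' := p'.1.isLt
    have hp2' := p'.2.isLt
    have hq1 := q.1.isLt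
    have hq2 := q.2.isLt
    have hq1' := q'.1.isLt
    have hq2' := q'.2.isLt
    have hb1 : ∀ f : Colouring L, |((sg (f p) (f q) : ℤ) : ℝ)| ≤ 1 := by
      intro f
      have := sg_abs (f p) (f q)
      rw [← Int.cast_abs]
      exact_mod_cast this
    have hb2 : ∀ f : Colouring L, |((sg (f p') (f q') : ℤ) : ℝ)| ≤ 1 := by
      intro f
      have := sg_abs (f p') (f q')
      rw [← Int.cast_abs]
      exact_mod_cast this
    by_cases hd : sd p' p < D + 2
    · have h1 : |Ex w (fun f => (sg (f p) (f q) : ℝ) * (sg (f p') (f q') : ℝ))| ≤ 1 := by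
        have hle : ∀ f : Colouring L,
            (sg (f p) (f q) : ℝ) * (sg (f p') (f q') : ℝ) ≤ (fun _ => (1 : ℝ)) f := by
          intro f
          have := abs_le.mp (hb1 f)
          have := abs_le.mp (hb2 f)
          simp only
          nlinarith [abs_le.mp (hb1 f), abs_le.mp (hb2 f)]
        have hge : ∀ f : Colouring L, (fun _ => (-1 : ℝ)) f ≤
            (sg (f p) (f q) : ℝ) * (sg (f p') (f q') : ℝ) := by
          intro f
          have := abs_le.mp (hb1 f)
          have := abs_le.mp (hb2 f)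
          simp only
          nlinarith [abs_le.mp (hb1 f), abs_le.mp (hb2 f)]
        have e1 := Ex_mono hw.nonneg hle
        have e2 := Ex_mono hw.nonneg hge
        have e3 : Ex w (fun _ => (1 : ℝ)) = 1 := by simp [Ex, hw.total]
        have e4 : Ex w (fun _ => (-1 : ℝ)) = -1 := by simp [Ex, hw.total]
        rw [e3] at e1
        rw [e4] at e2
        exact abs_le.mpr ⟨e2, e1⟩
      refine h1.trans ?_
      rw [hε]
      simp only
      rw [if_pos hd]
      have := mul_nonneg hK'0 (hδ.nonneg (sd p' p - 2))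
      linarith
    · have hz : Ex w (fun f => (sg (f p) (f q) : ℝ)) = 0 := by
        apply hw.odd rho
        intro f
        rw [sg_rho]
        push_cast
        ring
      have hmem : ∀ (p q : Fin L × Fin L), Step p q →
          InBox 2 (min (p.1 : ℕ) (L - 2)) (min (p.2 : ℕ) (L - 2)) p ∧
          InBox 2 (min (p.1 : ℕ) (L - 2)) (min (p.2 : ℕ) (L - 2)) q := by
        intro p q hs
        have h1 := p.1.isLt
        have h2 := p.2.isLt
        have h3 := q.1.isLt
        have h4 := q.2.isLt
        unfold InBox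
        rcases hs with h | h <;> constructor <;> omega
      have hloc : ∀ (p q : Fin L × Fin L), Step p q →
          LocalTo 2 (min (p.1 : ℕ) (L - 2)) (min (p.2 : ℕ) (L - 2))
            (fun f : Colouring L => (sg (f p) (f q) : ℝ)) := by
        intro p q hs f f' hff
        obtain ⟨m1, m2⟩ := hmem p q hs
        simp only
        rw [hff p m1, hff q m2]
      have hmain : |Cov w (fun f => (sg (f p) (f q) : ℝ)) (fun f => (sg (f p') (f q') : ℝ))| ≤
          C 2 * δ (sd p' p - 2) := by
        by_contra hlt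
        apply hno2
        refine ⟨min (p.1 : ℕ) (L - 2), min (p.2 : ℕ) (L - 2), min (p'.1 : ℕ) (L - 2),
          min (p'.2 : ℕ) (L - 2), sd p' p - 2, by omega, by omega, by omega, by omega, by omega,
          ?_, (fun f => (sg (f p) (f q) : ℝ)), (fun f => (sg (f p') (f q') : ℝ)),
          hloc p q hs, hloc p' q' hs', hb1, hb2, not_le.mp hlt⟩
        intro r r' hr hr'
        obtain ⟨m1, _⟩ := hmem p q hs
        obtain ⟨m2, _⟩ := hmem p' q' hs'
        unfold InBox at hr hr' m1 m2
        unfold sd nd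
        omega
      unfold Cov at hmain
      rw [hz, zero_mul, sub_zero] at hmain
      refine hmain.trans ?_
      rw [hε]
      simp only
      rw [if_neg hd, zero_add]
      exact mul_le_mul_of_nonneg_right (le_max_left _ _) (hδ.nonneg _)
  have hc := hcore L w hw hinc 0 0 (R + d) 0 (by omega) (by omega) (by omega) (by omega)
  have hsmall : ∀ (g g' : Colouring L → ℝ), LocalTo R 0 0 g → LocalTo R (R + d) 0 g' →
      (∀ f, |g f| ≤ 1) → (∀ f, |g' f| ≤ 1) → Ex w g = 0 →
      Ex w (fun f => g f * g' f) ≤ 1 / 8 := by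
    intro g g' h1 h2 h3 h4 h5
    have : |Cov w g g'| ≤ C R * δ d := by
      by_contra hlt
      apply hnoR
      refine ⟨0, 0, R + d, 0, d, by omega, by omega, by omega, by omega, hd2, ?_, g, g',
        h1, h2, h3, h4, not_le.mp hlt⟩
      intro r r' hr hr'
      unfold InBox at hr hr'
      unfold sd nd
      omega
    unfold Cov at this
    rw [h5, zero_mul, sub_zero] at this
    have h6 : C R * δ d ≤ max (C R) 0 * δ d :=
      mul_le_mul_of_nonneg_right (le_max_left _ _) (hδ.nonneg _)
    have h7 := (abs_le.mp this).2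
    linarith
  have s1 := hsmall (fun f => Real.cos (Real.pi * phase R 0 0 f))
    (fun f => Real.cos (Real.pi * phase R (R + d) 0 f))
    (fun f f' hf => by
      simp only
      rw [phase_local R 0 0 hR0 (by omega) (by omega) f f' hf])
    (fun f f' hf => by
      simp only
      rw [phase_local R (R + d) 0 hR0 (by omega) (by omega) f f' hf])
    (fun f => Real.abs_cos_le_one _) (fun f => Real.abs_cos_le_one _)
    (hw.odd tau _ (fun f => cos_phase_tau R 0 0 hR0 (by omega) (by omega) f))
  have s2 := hsmall (fun f => Real.sin (Real.pi * phase R 0 0 f))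
    (fun f => Real.sin (Real.pi * phase R (R + d) 0 f))
    (fun f f' hf => by
      simp only
      rw [phase_local R 0 0 hR0 (by omega) (by omega) f f' hf])
    (fun f f' hf => by
      simp only
      rw [phase_local R (R + d) 0 hR0 (by omega) (by omega) f f' hf])
    (fun f => Real.abs_sin_le_one _) (fun f => Real.abs_sin_le_one _)
    (hw.odd tau _ (fun f => sin_phase_tau R 0 0 hR0 (by omega) (by omega) f))
  linarith

/-- the power functions are admissible -/
lemma good_rpow {ε : ℝ} (hε : 0 < ε) : Good (fun d : ℕ => ((d : ℝ) + 1) ^ (-(2 + ε))) := by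
  have hpos : ∀ j : ℕ, (0 : ℝ) < (j : ℝ) + 1 := fun j => by positivity
  refine ⟨?_, fun j => (Real.rpow_pos_of_pos (hpos j) _).le, ?_⟩
  · intro a b hab
    have hab' : (a : ℝ) + 1 ≤ (b : ℝ) + 1 := by
      have : (a : ℝ) ≤ b := by exact_mod_cast hab
      linarith
    exact Real.rpow_le_rpow_of_nonpos (hpos a) hab' (by linarith)
  · have h1 : Summable fun n : ℕ => ((n : ℝ)) ^ (-(1 + ε)) := by
      rw [Real.summable_nat_rpow]
      linarith
    have h2 : Summable fun n : ℕ => ((n : ℝ) + 1) ^ (-(1 + ε)) := by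
      have := (summable_nat_add_iff 1).mpr h1
      refine this.congr (fun n => ?_)
      push_cast
      rfl
    refine Summable.of_nonneg_of_le (fun j => mul_nonneg (Nat.cast_nonneg j)
      (Real.rpow_pos_of_pos (hpos j) _).le) (fun j => ?_) h2
    calc (j : ℝ) * ((j : ℝ) + 1) ^ (-(2 + ε)) ≤ ((j : ℝ) + 1) * ((j : ℝ) + 1) ^ (-(2 + ε)) :=
          mul_le_mul_of_nonneg_right (by linarith) (Real.rpow_pos_of_pos (hpos j) _).le
      _ = ((j : ℝ) + 1) ^ (-(1 + ε)) := by
          rw [← Real.rpow_one_add' (hpos j).le (by linarith)]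
          congr 1
          ring

/-- **Dichotomy** -/
theorem dichotomy {δ : ℕ → ℝ} (hδ : Good δ) (η : ℝ) (hη : 0 < η) : ∃ R : ℕ, 0 < R ∧
    ∀ (L : ℕ) (w : Colouring L → ℝ), SymLaw w →
      (∀ p q p' q' : Fin L × Fin L, Adj p q → Adj p' q' →
        ∀ d : ℕ, d ≤ sd p p' → d ≤ sd p q' → d ≤ sd q p' → d ≤ sd q q' →
          |Ex w (fun f => if SameType (f p) (f q) (f p') (f q') then 1 else 0) - 1 / 3| ≤ δ d) →
      ∃ u v : ℕ → ℕ → Colouring L → ℝ,
        (∀ a b : ℕ, a + R ≤ L → b + R ≤ L →
          LocalTo R a b (u a b) ∧ LocalTo R a b (v a b) ∧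
          (∀ f, u a b f ^ 2 + v a b f ^ 2 = 1) ∧ Ex w (u a b) = 0 ∧ Ex w (v a b) = 0) ∧
        ∀ a b a' b' : ℕ, a + R ≤ L → b + R ≤ L → a' + R ≤ L → b' + R ≤ L →
          1 - η ≤ Ex w (fun f => u a b f * u a' b' f) + Ex w (fun f => v a b f * v a' b' f) := by
  obtain ⟨R, hR0, hcore⟩ := core (Good.shift hδ 1) η hη
  refine ⟨R, hR0, fun L w hw hT => ?_⟩
  have hinc : Inc (fun n => δ (n - 1)) L w hR := by
    apply inc_of_moment hw
    intro p q p' q' hs hs'
    rw [moment_eq hw p q p' q' hs.adj hs'.adj]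
    refine hT p q p' q' hs.adj hs'.adj (sd p' p - 1) ?_ ?_ ?_ ?_ <;>
      (rcases hs with h | h <;> rcases hs' with h' | h' <;> unfold sd nd <;> omega)
  refine ⟨fun a b f => Real.cos (Real.pi * phase R a b f),
    fun a b f => Real.sin (Real.pi * phase R a b f), ?_, ?_⟩
  · intro a b ha hb
    refine ⟨?_, ?_, ?_, ?_, ?_⟩
    · intro f f' hf
      simp only
      rw [phase_local R a b hR0 ha hb f f' hf]
    · intro f f' hf
      simp only
      rw [phase_local R a b hR0 ha hb f f' hf]
    · intro f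
      exact Real.cos_sq_add_sin_sq _
    · exact hw.odd tau _ (fun f => cos_phase_tau R a b hR0 ha hb f)
    · exact hw.odd tau _ (fun f => sin_phase_tau R a b hR0 ha hb f)
  · intro a b a' b' ha hb ha' hb'
    exact hcore L w hw hinc a b a' b' ha hb ha' hb'

/-- **Main result.**
(1) The uniform proper 4-colourings of Q1: for every `ε > 0`, all constants `C_R` and `D` there are
`R₁`, `L₀` such that for every `L ≥ L₀` the bound `C_R d^(-2-ε)` fails for two `R × R` boxes of
`Λ_L` at distance at least `d ≥ D`, with `R = 2` or `R = R₁`.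
(2) The same for every law on the proper 4-colourings of `Λ_L` invariant under permutations of
the colours and every nonincreasing `δ ≥ 0` with `∑ j δ(j) < ∞`; the uniform laws are such laws.
(3) Dichotomy: if the types of two edges at distance `d` agree with probability `1/3 + O(δ(d))`,
then for some `R` there are unimodular mean zero functions of the colours in the `R × R` boxes
with correlation at least `1 - η` at all distances. -/
theorem result :
    (∀ ε : ℝ, 0 < ε → ∀ (C : ℕ → ℝ) (D : ℕ), ∃ R₁ L₀ : ℕ, ∀ L, L₀ ≤ L →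
      ∃ R, (R = 2 ∨ R = R₁) ∧
        Violates L (unif L) R (C R) D (fun d => ((d : ℝ) + 1) ^ (-(2 + ε)))) ∧
    ((∀ L, SymLaw (unif L)) ∧
      ∀ δ : ℕ → ℝ, Antitone δ → (∀ j, 0 ≤ δ j) → Summable (fun j : ℕ => (j : ℝ) * δ j) →
        ∀ (C : ℕ → ℝ) (D : ℕ), ∃ R₁ L₀ : ℕ, ∀ L, L₀ ≤ L → ∀ w : Colouring L → ℝ, SymLaw w →
          ∃ R, (R = 2 ∨ R = R₁) ∧ Violates L w R (C R) D δ) ∧
    (∀ δ : ℕ → ℝ, Antitone δ → (∀ j, 0 ≤ δ j) → Summable (fun j : ℕ => (j : ℝ) * δ j) →
      ∀ η : ℝ, 0 < η → ∃ R : ℕ, 0 < R ∧ ∀ (L : ℕ) (w : Colouring L → ℝ), SymLaw w →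
        (∀ p q p' q' : Fin L × Fin L, Adj p q → Adj p' q' →
          ∀ d : ℕ, d ≤ sd p p' → d ≤ sd p q' → d ≤ sd q p' → d ≤ sd q q' →
            |Ex w (fun f => if SameType (f p) (f q) (f p') (f q') then 1 else 0) - 1 / 3| ≤
              δ d) →
        ∃ u v : ℕ → ℕ → Colouring L → ℝ,
          (∀ a b : ℕ, a + R ≤ L → b + R ≤ L →
            LocalTo R a b (u a b) ∧ LocalTo R a b (v a b) ∧
            (∀ f, u a b f ^ 2 + v a b f ^ 2 = 1) ∧ Ex w (u a b) = 0 ∧ Ex w (v a b) = 0) ∧
          ∀ a b a' b' : ℕ, a + R ≤ L → b + R ≤ L → a' + R ≤ L → b' + R ≤ L →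
            1 - η ≤ Ex w (fun f => u a b f * u a' b' f) +
              Ex w (fun f => v a b f * v a' b' f)) := by
  refine ⟨?_, ⟨symLaw_unif, ?_⟩, fun _ h1 h2 h3 η hη => dichotomy ⟨h1, h2, h3⟩ η hη⟩
  · intro ε hε C D
    obtain ⟨R₁, L₀, h⟩ := violates (good_rpow hε) C D
    exact ⟨R₁, L₀, fun L hL => h L hL (unif L) (symLaw_unif L)⟩
  · intro δ h1 h2 h3 C D
    exact violates ⟨h1, h2, h3⟩ C D

end Pool.Agent.Results.MP_e1f4d9_pr.NoFastDecay
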